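import Pool.Agent.Q240.PN.Stm

/-! Project PN: basic facts. -/

set_option autoImplicit false

namespace Pool.Agent.Q240.PN

open Finset

theorem fac_eq {m : ℕ} (hm : 2 ≤ m) : (m : ℝ) ^ 2 / ((m : ℝ) ^ 2 - 1) =
    ((m : ℝ) / ((m : ℝ) - 1)) / (((m : ℝ) + 1) / m) := by
  have h : (2 : ℝ) ≤ m := by exact_mod_cast hm
  have h3 : (m : ℝ) - 1 ≠ 0 := by linarith
  have h4 : (m : ℝ) ≠ 0 := by linarith
  have h7 : (m : ℝ) + 1 ≠ 0 := by linarith
  have h6 : (m : ℝ) ^ 2 - 1 = ((m : ℝ) - 1) * ((m : ℝ) + 1) := by ring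
  rw [h6]
  field_simp

theorem one_le_fac {m : ℕ} (hm : 2 ≤ m) : (1 : ℝ) ≤ (m : ℝ) ^ 2 / ((m : ℝ) ^ 2 - 1) := by
  have h : (2 : ℝ) ≤ m := by exact_mod_cast hm
  rw [le_div_iff₀ (by nlinarith)]
  linarith

/-- telescoping: `∏_{T < m ≤ N} m²/(m²-1) = (N/T) (T+1)/(N+1)` -/
theorem tele_prod {T : ℕ} (hT : 1 ≤ T) (N : ℕ) (hN : T ≤ N) :
    ∏ m ∈ Ioc T N, ((m : ℝ) ^ 2 / ((m : ℝ) ^ 2 - 1)) = ((N : ℝ) / T) * ((T + 1) / (N + 1)) := by
  have hTr : (1 : ℝ) ≤ T := by exact_mod_cast hT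
  induction N, hN using Nat.le_induction with
  | base =>
    simp
    field_simp
  | succ N hN ih =>
    have hNr : (T : ℝ) ≤ N := by exact_mod_cast hN
    have : Ioc T (N + 1) = insert (N + 1) (Ioc T N) := by
      ext x; simp only [mem_Ioc, mem_insert]; omega
    rw [this, Finset.prod_insert (by simp), ih]
    push_cast
    have h1 : ((N : ℝ) + 1) ^ 2 - 1 = (N : ℝ) * (N + 2) := by ring
    rw [h1]
    have h2 : (N : ℝ) ≠ 0 := by linarith
    have h3 : (T : ℝ) ≠ 0 := by linarith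
    have h4 : (N : ℝ) + 1 ≠ 0 := by linarith
    have h5 : (N : ℝ) + 2 ≠ 0 := by linarith
    have h6 : (N : ℝ) + 1 + 1 ≠ 0 := by linarith
    field_simp
    ring

theorem one_le_prod' {A : Finset ℕ} {f : ℕ → ℝ} (h : ∀ p ∈ A, 1 ≤ f p) : 1 ≤ ∏ p ∈ A, f p := by
  classical
  induction A using Finset.induction_on with
  | empty => simp
  | insert a A ha ih =>
    rw [Finset.prod_insert ha]
    have h1 := h a (Finset.mem_insert_self _ _)
    have h2 := ih (fun p hp => h p (Finset.mem_insert_of_mem hp))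
    nlinarith

theorem tail_le {A : Finset ℕ} (hA : OP A) {T : ℕ} (hT : 1 ≤ T) (h : ∀ p ∈ A, T < p) :
    RA A ≤ 1 + 1 / (T : ℝ) := by
  have hTr : (1 : ℝ) ≤ T := by exact_mod_cast hT
  set N := max T (A.sup id) with hN
  have hsub : A ⊆ Ioc T N := by
    intro p hp
    rw [mem_Ioc]
    exact ⟨h p hp, (Finset.le_sup (f := id) hp).trans (le_max_right _ _)⟩
  have hTN : T ≤ N := le_max_left _ _
  have h1 : RA A ≤ ∏ m ∈ Ioc T N, ((m : ℝ) ^ 2 / ((m : ℝ) ^ 2 - 1)) := by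
    unfold RA
    rw [← Finset.prod_sdiff hsub]
    have h0 : (0 : ℝ) ≤ ∏ x ∈ A, ((x : ℝ) ^ 2 / ((x : ℝ) ^ 2 - 1)) := by
      apply Finset.prod_nonneg
      intro p hp
      have := one_le_fac (hA p hp).1.two_le
      linarith
    have h1 : (1 : ℝ) ≤ ∏ x ∈ Ioc T N \ A, ((x : ℝ) ^ 2 / ((x : ℝ) ^ 2 - 1)) := by
      apply one_le_prod'
      intro p hp
      rw [mem_sdiff, mem_Ioc] at hp
      exact one_le_fac (by omega)
    nlinarith
  rw [tele_prod hT N hTN] at h1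
  have hNr : (T : ℝ) ≤ N := by exact_mod_cast hTN
  have h2 : ((N : ℝ) / T) * ((T + 1) / (N + 1)) ≤ 1 + 1 / (T : ℝ) := by
    have h3 : (1 : ℝ) + 1 / T = (T + 1) / T := by field_simp
    rw [h3, div_mul_div_comm, div_le_div_iff₀ (by positivity) (by positivity)]
    have h5 : (0:ℝ) ≤ (T + 1) * T := by positivity
    nlinarith
  linarith

theorem one_le_RA {A : Finset ℕ} (hA : OP A) : 1 ≤ RA A :=
  one_le_prod' (fun p hp => one_le_fac (hA p hp).1.two_le)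

theorem RA_le {A : Finset ℕ} (hA : OP A) : RA A ≤ 3 / 2 := by
  have h := tail_le hA (T := 2) (by norm_num) (by
    intro p hp
    have h1 := (hA p hp).1.two_le
    have h2 := (hA p hp).2
    omega)
  norm_num at h ⊢
  linarith

theorem bdd : BddAbove {x : ℝ | ∃ A : Finset ℕ, OP A ∧ hA A < 2 ∧ x = RA A} := by
  refine ⟨3 / 2, ?_⟩
  rintro x ⟨A, hA, _, rfl⟩
  exact RA_le hA

theorem three_mem : (9 / 8 : ℝ) ∈ {x : ℝ | ∃ A : Finset ℕ, OP A ∧ hA A < 2 ∧ x = RA A} := by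
  refine ⟨{3}, ?_, ?_, ?_⟩
  · intro p hp
    rw [mem_singleton] at hp
    subst hp
    exact ⟨Nat.prime_three, by norm_num⟩
  · unfold hA
    rw [Finset.prod_singleton]
    norm_num
  · unfold RA
    rw [Finset.prod_singleton]
    norm_num

theorem bas : S_BAS := by
  refine ⟨fun A hA => ⟨one_le_RA hA, RA_le hA⟩, ?_, ⟨?_, ?_⟩, ?_, fun A hA T hT h => tail_le hA hT h⟩
  · intro A hA h2
    exact le_csSup bdd ⟨A, hA, h2, rfl⟩
  · exact le_csSup bdd three_mem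
  · apply csSup_le ⟨_, three_mem⟩
    rintro x ⟨A, hA, _, rfl⟩
    exact RA_le hA
  · intro δ hδ
    have hW : 9 / 8 ≤ W := le_csSup bdd three_mem
    have hlt : W * (1 - δ) < W := by nlinarith
    obtain ⟨x, ⟨A, hA, h2, rfl⟩, hx⟩ := exists_lt_of_lt_csSup ⟨_, three_mem⟩ hlt
    exact ⟨A, hA, h2, hx⟩

end Pool.Agent.Q240.PN
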