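import Pool.Agent.Q240.PN.Stm

/-! Project PN: the upper bound for `H` on odd primitive non-deficient numbers. -/

set_option autoImplicit false

namespace Pool.Agent.Q240.PN

open Finset

theorem H_eq (n : ℕ) : H n = hA n.primeFactors * RA n.primeFactors := by
  unfold H hA RA
  rw [← Finset.prod_mul_distrib]
  apply Finset.prod_congr rfl
  intro p hp
  have h2 : (2 : ℝ) ≤ p := by exact_mod_cast (Nat.prime_of_mem_primeFactors hp).two_le
  have h3 : (p : ℝ) - 1 ≠ 0 := by linarith
  have h4 : (p : ℝ) ≠ 0 := by linarith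
  have h5 : (p : ℝ) ^ 2 - 1 ≠ 0 := by nlinarith
  have h6 : (p : ℝ) ^ 2 - 1 = ((p : ℝ) - 1) * ((p : ℝ) + 1) := by ring
  have h7 : (p : ℝ) + 1 ≠ 0 := by linarith
  rw [h6]
  field_simp

theorem hA_le_sigma {k : ℕ} (hk : k ≠ 0) : (k : ℝ) * hA k.primeFactors ≤ ((∑ d ∈ k.divisors, d : ℕ) : ℝ) := by
  have h2 : (k : ℝ) = ∏ p ∈ k.primeFactors, (p : ℝ) ^ k.factorization p := by
    have h3 := Nat.prod_factorization_pow_eq_self hk
    rw [Finsupp.prod, Nat.support_factorization] at h3
    exact_mod_cast h3.symm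
  have h4 : (k : ℝ) * hA k.primeFactors = ∏ p ∈ k.primeFactors, (p : ℝ) ^ k.factorization p * (1 + 1 / (p : ℝ)) := by
    rw [Finset.prod_mul_distrib, ← h2]
    rfl
  rw [Nat.sum_divisors hk, h4]
  push_cast
  apply Finset.prod_le_prod
  · intro p _
    positivity
  · intro p hp
    have hpp := Nat.prime_of_mem_primeFactors hp
    have hp1 : (2 : ℝ) ≤ p := by exact_mod_cast hpp.two_le
    have ha : 1 ≤ k.factorization p :=
      (hpp.dvd_iff_one_le_factorization hk).1 (Nat.dvd_of_mem_primeFactors hp)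
    obtain ⟨a, ha⟩ : ∃ a, k.factorization p = a + 1 := ⟨k.factorization p - 1, by omega⟩
    rw [ha, Finset.sum_range_succ, Finset.sum_range_succ]
    have h5 : 0 ≤ ∑ x ∈ range a, (p : ℝ) ^ x := Finset.sum_nonneg (fun _ _ => by positivity)
    have h6 : (p : ℝ) ^ (a + 1) * (1 + 1 / (p : ℝ)) = (p : ℝ) ^ (a + 1) + (p : ℝ) ^ a := by
      have : (p : ℝ) ≠ 0 := by linarith
      field_simp
      try ring
    rw [h6]
    linarith

theorem up (hB : S_BAS) : S_UP := by
  intro n hn hprim p hp hpn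
  have hn0 : 0 < n := hn.pos
  obtain ⟨k, rfl⟩ := hpn
  have hk0 : 0 < k := Nat.pos_of_mul_pos_left hn0 |> fun h => by
    rcases Nat.eq_zero_or_pos k with h0 | h0
    · subst h0; simp at hn0
    · exact h0
  have hkn : k < p * k := by
    have := hp.two_le
    nlinarith
  have hkd := hprim.2 k (Dvd.intro_left p rfl) hkn
  unfold NonDef at hkd
  push Not at hkd
  have hkr : (0 : ℝ) < k := by exact_mod_cast hk0
  have hhA : hA k.primeFactors < 2 := by
    have h1 := hA_le_sigma hk0.ne'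
    have h2 : ((∑ d ∈ k.divisors, d : ℕ) : ℝ) < 2 * k := by exact_mod_cast hkd
    nlinarith
  have hko : Odd k := (Nat.odd_mul.1 hn).2
  have hOP : OP k.primeFactors := by
    intro q hq
    refine ⟨Nat.prime_of_mem_primeFactors hq, ?_⟩
    rintro rfl
    have := Nat.dvd_of_mem_primeFactors hq
    exact (Nat.not_even_iff_odd.2 hko) (even_iff_two_dvd.2 this)
  have hRW := hB.2.1 _ hOP hhA
  have hR1 := (hB.1 _ hOP).1
  have hHk : H k < 2 * W := by
    rw [H_eq]
    have h1 : (0 : ℝ) < RA k.primeFactors := by linarith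
    calc hA k.primeFactors * RA k.primeFactors < 2 * RA k.primeFactors :=
          mul_lt_mul_of_pos_right hhA h1
      _ ≤ 2 * W := by linarith
  have hp2 : (2 : ℝ) ≤ p := by exact_mod_cast hp.two_le
  have hf1 : (1 : ℝ) ≤ (p : ℝ) / ((p : ℝ) - 1) := by
    rw [le_div_iff₀ (by linarith)]; linarith
  have hfac : ∀ q ∈ k.primeFactors, (0 : ℝ) < (q : ℝ) / ((q : ℝ) - 1) := by
    intro q hq
    have : (2 : ℝ) ≤ q := by exact_mod_cast (Nat.prime_of_mem_primeFactors hq).two_le
    apply div_pos <;> linarith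
  have hHk0 : 0 < H k := Finset.prod_pos hfac
  have hHn : H (p * k) ≤ (p : ℝ) / ((p : ℝ) - 1) * H k := by
    unfold H
    rw [Nat.primeFactors_mul hp.ne_zero hk0.ne', hp.primeFactors]
    by_cases hpk : p ∈ k.primeFactors
    · have : ({p} : Finset ℕ) ∪ k.primeFactors = k.primeFactors := by
        apply Finset.union_eq_right.2
        simpa using Nat.mem_primeFactors.1 hpk
      rw [this]
      have h0 : 0 < ∏ q ∈ k.primeFactors, (q : ℝ) / ((q : ℝ) - 1) := Finset.prod_pos hfac
      nlinarith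
    · rw [Finset.prod_union (Finset.disjoint_singleton_left.2 hpk), Finset.prod_singleton]
  calc H (p * k) ≤ (p : ℝ) / ((p : ℝ) - 1) * H k := hHn
    _ < (p : ℝ) / ((p : ℝ) - 1) * (2 * W) := mul_lt_mul_of_pos_left hHk (by linarith)
    _ = _ := by ring

end Pool.Agent.Q240.PN
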