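import Pool.Agent.Q240.PN.St1
import Pool.Agent.Q240.PN.Up

/-! Project PN: long primitive numbers with a large value of `H`. -/

set_option autoImplicit false

namespace Pool.Agent.Q240.PN

open Finset

/-- the product of a finite set of primes -/
def pr (E : Finset ℕ) : ℕ := ∏ p ∈ E, p

theorem pr_pos {E : Finset ℕ} (h : ∀ p ∈ E, p.Prime) : 0 < pr E :=
  Finset.prod_pos (fun p hp => (h p hp).pos)

theorem pr_factors {E : Finset ℕ} (h : ∀ p ∈ E, p.Prime) : (pr E).primeFactors = E :=
  Nat.primeFactors_prod h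

theorem pr_coprime {E : Finset ℕ} (h : ∀ p ∈ E, p.Prime) {q : ℕ} (hq : q.Prime) (hqE : q ∉ E) :
    q.Coprime (pr E) := by
  rw [hq.coprime_iff_not_dvd]
  intro hd
  apply hqE
  have : q ∈ (pr E).primeFactors := Nat.mem_primeFactors.2 ⟨hq, hd, (pr_pos h).ne'⟩
  rwa [pr_factors h] at this

theorem pr_sigma {E : Finset ℕ} (h : ∀ p ∈ E, p.Prime) :
    ((∑ d ∈ (pr E).divisors, d : ℕ) : ℝ) = (pr E : ℝ) * hA E ∧ Squarefree (pr E) := by
  classical
  induction E using Finset.induction_on with
  | empty => simp [pr, hA]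
  | insert q E hq ih =>
    have hE : ∀ p ∈ E, p.Prime := fun p hp => h p (Finset.mem_insert_of_mem hp)
    have hqp : q.Prime := h q (Finset.mem_insert_self _ _)
    obtain ⟨ih1, ih2⟩ := ih hE
    have hcop := pr_coprime hE hqp hq
    have hpr : pr (insert q E) = q * pr E := by
      unfold pr
      rw [Finset.prod_insert hq]
    rw [hpr, hA_insert hq, Nat.Coprime.sum_divisors_mul hcop, Nat.Prime.sum_divisors hqp, Nat.squarefree_mul hcop]
    refine ⟨?_, hqp.squarefree, ih2⟩
    have hq0 : (q : ℝ) ≠ 0 := by exact_mod_cast hqp.ne_zero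
    have h3 : (((q + 1) * ∑ d ∈ (pr E).divisors, d : ℕ) : ℝ) = ((q : ℝ) + 1) * ((∑ d ∈ (pr E).divisors, d : ℕ) : ℝ) := by
      push_cast
      ring
    rw [h3, ih1]
    push_cast
    field_simp

theorem pr_nonDef_iff {E : Finset ℕ} (h : ∀ p ∈ E, p.Prime) : NonDef (pr E) ↔ 2 ≤ hA E := by
  have h0 : (0 : ℝ) < pr E := by exact_mod_cast pr_pos h
  have h1 := (pr_sigma h).1
  unfold NonDef
  constructor
  · intro h2
    have h3 : (2 : ℝ) * pr E ≤ ((∑ d ∈ (pr E).divisors, d : ℕ) : ℝ) := by exact_mod_cast h2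
    rw [h1, mul_comm (pr E : ℝ)] at h3
    exact le_of_mul_le_mul_right h3 h0
  · intro h2
    have h3 : (2 : ℝ) * pr E ≤ ((∑ d ∈ (pr E).divisors, d : ℕ) : ℝ) := by
      rw [h1, mul_comm (pr E : ℝ)]
      exact mul_le_mul_of_nonneg_right h2 h0.le
    exact_mod_cast h3

/-- a product of primes whose largest prime is needed is primitive -/
theorem pr_prim {D : Finset ℕ} (h : ∀ p ∈ D, p.Prime) {P : ℕ} (hP : P ∈ D) (hmax : ∀ p ∈ D, p ≤ P)
    (h2 : 2 ≤ hA D) (h3 : hA (D.erase P) < 2) : Prim (pr D) := by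
  classical
  refine ⟨(pr_nonDef_iff h).2 h2, ?_⟩
  intro d hd hlt
  have hsq := (pr_sigma h).2
  have hdsq : Squarefree d := hsq.squarefree_of_dvd hd
  set E := d.primeFactors with hE
  have hEd : pr E = d := Nat.prod_primeFactors_of_squarefree hdsq
  have hED : E ⊆ D := by
    rw [← pr_factors h, hE]
    exact Nat.primeFactors_mono hd (pr_pos h).ne'
  have hEp : ∀ p ∈ E, p.Prime := fun p hp => h p (hED hp)
  obtain ⟨q, hqD, hqE⟩ : ∃ q ∈ D, q ∉ E := by
    by_contra hc
    push Not at hc
    have : E = D := Finset.Subset.antisymm hED (fun q hq => hc q hq)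
    rw [this] at hEd
    omega
  have hsub : E ⊆ D.erase q := by
    intro p hp
    rw [Finset.mem_erase]
    refine ⟨?_, hED hp⟩
    rintro rfl
    exact hqE hp
  rw [← hEd, pr_nonDef_iff hEp]
  push Not
  have h4 : hA E ≤ hA (D.erase q) := hA_mono hsub
  have hD1 : hA D = hA (D.erase q) * (1 + 1 / (q : ℝ)) := by
    conv_lhs => rw [← Finset.insert_erase hqD]
    rw [hA_insert (Finset.notMem_erase _ _)]
  have hD2 : hA D = hA (D.erase P) * (1 + 1 / (P : ℝ)) := by
    conv_lhs => rw [← Finset.insert_erase hP]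
    rw [hA_insert (Finset.notMem_erase _ _)]
  have hq0 : (0 : ℝ) < q := by exact_mod_cast (h q hqD).pos
  have hqP : (q : ℝ) ≤ P := by exact_mod_cast hmax q hqD
  have h5 : 1 / (P : ℝ) ≤ 1 / (q : ℝ) := one_div_le_one_div_of_le hq0 hqP
  have h6 : (0 : ℝ) ≤ 1 / (P : ℝ) := by positivity
  have h7 := one_le_hA (D.erase q)
  have h8 : hA (D.erase q) * (1 + 1 / (P : ℝ)) ≤ hA (D.erase P) * (1 + 1 / (P : ℝ)) := by
    rw [← hD2, hD1]
    exact mul_le_mul_of_nonneg_left (by linarith) (by linarith)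
  have h9 : hA (D.erase q) ≤ hA (D.erase P) := le_of_mul_le_mul_right h8 (by linarith)
  linarith

theorem cand (hB : S_BAS) (hN : S_NEAR) (hWn : S_WIN) : S_CAND := by
  classical
  obtain ⟨C2, hC2, hnear⟩ := hN
  have hC0 : 0 < C2 := by linarith
  set c1 : ℝ := 1 / (16 * C2) with hc1
  have hc10 : 0 < c1 := by positivity
  have hc11 : c1 ≤ 1 := by
    rw [hc1, div_le_one (by positivity)]
    linarith
  obtain ⟨Y1, hY1, hwin⟩ := hWn c1 hc10 hc11
  refine ⟨C2, c1 / 4, hC0, by positivity, ?_⟩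
  intro Y0
  obtain ⟨A, Y, hAOP, hY, hYone, hAeq, hAR, hAc⟩ :=
    hnear (c1 / 2) (by positivity) (max (max Y0 Y1) (max (2 * C2) (4 / c1)))
  have hYa : Y0 ≤ Y := (le_max_left _ _).trans ((le_max_left _ _).trans hY)
  have hYb : Y1 ≤ Y := (le_max_right _ _).trans ((le_max_left _ _).trans hY)
  have hYc : 2 * C2 ≤ Y := (le_max_left _ _).trans ((le_max_right _ _).trans hY)
  have hYd : 4 / c1 ≤ Y := (le_max_right _ _).trans ((le_max_right _ _).trans hY)
  have hY0 : 0 < Y := by linarith
  have hcY : 4 ≤ c1 * Y := by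
    rw [div_le_iff₀ hc10] at hYd
    linarith
  obtain ⟨M, P, hPM, hM, hMe, hMg⟩ := hwin Y hYb
  -- the union
  have hdisj : Disjoint A M := by
    rw [Finset.disjoint_left]
    intro p hpA hpM
    have h1 := hAc p hpA
    have h2 := (hM p hpM).2.1
    linarith
  set D := A ∪ M with hD
  have hDp : ∀ p ∈ D, p.Prime := by
    intro p hp
    rcases Finset.mem_union.1 hp with h | h
    · exact (hAOP p h).1
    · exact (hM p h).1
  have hbig : ∀ p ∈ M, (2 : ℝ) * Y ≤ p := by
    intro p hp
    have h1 := (hM p hp).2.1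
    nlinarith
  have hDodd : OP D := by
    intro p hp
    refine ⟨hDp p hp, ?_⟩
    rcases Finset.mem_union.1 hp with h | h
    · exact (hAOP p h).2
    · rintro rfl
      have h1 := (hM 2 h).2.1
      push_cast at h1
      nlinarith
  have hPD : P ∈ D := Finset.mem_union_right _ hPM
  have hmax : ∀ p ∈ D, p ≤ P := by
    intro p hp
    rcases Finset.mem_union.1 hp with h | h
    · have h1 := hAc p h
      have h2 := (hM P hPM).2.1
      have h3 : (p : ℝ) ≤ P := by linarith
      exact_mod_cast h3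
    · exact (hM p h).2.2.2
  have hPA : P ∉ A := fun h => (Finset.disjoint_left.1 hdisj h) hPM
  have hhD : hA D = hA A * hA M := by
    unfold hA
    rw [hD, Finset.prod_union hdisj]
  have hA1 := one_le_hA A
  have hP0 : (0 : ℝ) < P := by exact_mod_cast (hDp P hPD).pos
  have hgeD : 2 * (1 + 1 / (4 * (P : ℝ))) ≤ hA D := by
    rw [hhD]
    calc 2 * (1 + 1 / (4 * (P : ℝ))) = hA A * (1 + 1 / Y) * (1 + 1 / (4 * (P : ℝ))) := by rw [hAeq]
      _ = hA A * ((1 + 1 / Y) * (1 + 1 / (4 * (P : ℝ)))) := by ring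
      _ ≤ hA A * hA M := mul_le_mul_of_nonneg_left hMg (by linarith)
  have h4P : (0 : ℝ) ≤ 1 / (4 * (P : ℝ)) := by positivity
  have hge2 : 2 ≤ hA D := by linarith
  have herase : D.erase P = A ∪ M.erase P := by
    rw [hD, Finset.erase_union_distrib, Finset.erase_eq_of_notMem hPA]
  have hdisj' : Disjoint A (M.erase P) := Finset.disjoint_of_subset_right (Finset.erase_subset _ _) hdisj
  have hlt2 : hA (D.erase P) < 2 := by
    rw [herase]
    have : hA (A ∪ M.erase P) = hA A * hA (M.erase P) := by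
      unfold hA
      rw [Finset.prod_union hdisj']
    rw [this]
    calc hA A * hA (M.erase P) < hA A * (1 + 1 / Y) := mul_lt_mul_of_pos_left hMe (by linarith)
      _ = 2 := hAeq
  refine ⟨Y, pr D, hYa, hYone, ?_, pr_prim hDp hPD hmax hge2 hlt2, ?_, ?_⟩
  · -- odd
    unfold pr
    apply Finset.prod_induction _ Odd (fun _ _ ha hb => ha.mul hb) odd_one
    intro p hp
    exact (hDp p hp).odd_of_ne_two (hDodd p hp).2
  · -- the value of `H`
    rw [H_eq, pr_factors hDp]
    have hRD : RA D = RA A * RA M := by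
      unfold RA
      rw [hD, Finset.prod_union hdisj]
    have hMOP : OP M := fun p hp => hDodd p (Finset.mem_union_right _ hp)
    have hRM := (hB.1 M hMOP).1
    have hRA1 := (hB.1 A hAOP).1
    have hRD' : W * (1 - C2 / Y ^ 2) ≤ RA D := by
      rw [hRD]
      nlinarith
    have hP1 : (P : ℝ) ≤ c1 * Y ^ 2 := (hM P hPM).2.2.1
    set u : ℝ := C2 / Y ^ 2 with hu
    have hu0 : 0 < u := by positivity
    have hu1 : u ≤ 1 / 2 := by
      rw [hu, div_le_iff₀ (by positivity)]
      nlinarith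
    have h5 : 4 * u ≤ 1 / (4 * (P : ℝ)) := by
      have h6 : 4 * u = 1 / (4 * (c1 * Y ^ 2)) := by
        rw [hu, hc1]
        field_simp
        norm_num
      rw [h6]
      exact one_div_le_one_div_of_le (by positivity) (by linarith)
    have hW : 9 / 8 ≤ W := hB.2.2.1.1
    have h7 : 2 * (1 + 4 * u) ≤ hA D := by linarith
    calc 2 * W * (1 + u) ≤ (2 * (1 + 4 * u)) * (W * (1 - u)) := by
          have : (1 + u) ≤ (1 + 4 * u) * (1 - u) := by nlinarith
          nlinarith
      _ ≤ hA D * RA D := by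
          apply mul_le_mul h7 hRD' _ (by linarith)
          apply mul_nonneg (by linarith) (by linarith)
  · -- the size of `n`
    have hMne : ∀ p ∈ M, (0 : ℝ) < p := fun p hp => by exact_mod_cast (hM p hp).1.pos
    have hlogh : 1 / (Y + 1) ≤ Real.log (hA M) := by
      have h1 : 1 + 1 / Y ≤ hA M := by
        have h2 : (0 : ℝ) < 1 / Y := by positivity
        nlinarith
      have h3 : Real.log (1 + 1 / Y) ≤ Real.log (hA M) := Real.log_le_log (by positivity) h1
      have h4 : 1 / (Y + 1) ≤ Real.log (1 + 1 / Y) := by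
        have h5 := Real.one_sub_inv_le_log_of_pos (x := 1 + 1 / Y) (by positivity)
        have h6 : 1 - (1 + 1 / Y)⁻¹ = 1 / (Y + 1) := by
          field_simp
          ring
        linarith
      linarith
    have hlog1 : Real.log (hA M) ≤ ∑ p ∈ M, 1 / (p : ℝ) := by
      unfold hA
      rw [Real.log_prod (fun p _ => by positivity)]
      apply Finset.sum_le_sum
      intro p hp
      have := Real.log_le_sub_one_of_pos (x := 1 + 1 / (p : ℝ)) (by positivity)
      linarith
    have hsum : ∑ p ∈ M, 1 / (p : ℝ) ≤ M.card * (2 / (c1 * Y ^ 2)) := by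
      rw [← nsmul_eq_mul]
      apply Finset.sum_le_card_nsmul
      intro p hp
      have h1 := (hM p hp).2.1
      rw [div_le_div_iff₀ (hMne p hp) (by positivity)]
      linarith
    have hcard : c1 * Y / 4 ≤ M.card := by
      have h1 : 1 / (Y + 1) ≤ M.card * (2 / (c1 * Y ^ 2)) := by linarith
      rw [div_le_iff₀ (by linarith), mul_div_assoc', div_mul_eq_mul_div, le_div_iff₀ (by positivity)] at h1
      have h2 : (Y + 1) ≤ 2 * Y := by linarith
      have h3 : (M.card : ℝ) * 2 * (Y + 1) ≤ M.card * 2 * (2 * Y) := mul_le_mul_of_nonneg_left h2 (by positivity)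
      have h4 : c1 * Y ^ 2 ≤ M.card * 4 * Y := by linarith
      have h5 : c1 * Y * Y ≤ M.card * 4 * Y := by
        have : c1 * Y * Y = c1 * Y ^ 2 := by ring
        linarith
      have h6 : c1 * Y ≤ M.card * 4 := le_of_mul_le_mul_right h5 hY0
      linarith
    have hlogY : 0 ≤ Real.log Y := Real.log_nonneg hYone
    have hlogn : Real.log (pr D : ℝ) = ∑ p ∈ D, Real.log (p : ℝ) := by
      unfold pr
      push_cast
      rw [Real.log_prod]
      intro p hp
      have := (hDp p hp).pos
      positivity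
    rw [hlogn, hD, Finset.sum_union hdisj]
    have h1 : 0 ≤ ∑ p ∈ A, Real.log (p : ℝ) := by
      apply Finset.sum_nonneg
      intro p hp
      exact Real.log_natCast_nonneg p
    have h2 : (M.card : ℝ) * Real.log Y ≤ ∑ p ∈ M, Real.log (p : ℝ) := by
      rw [← nsmul_eq_mul]
      apply Finset.card_nsmul_le_sum
      intro p hp
      apply Real.log_le_log hY0
      have := hbig p hp
      linarith
    have h3 : c1 / 4 * Y * Real.log Y ≤ (M.card : ℝ) * Real.log Y := by
      apply mul_le_mul_of_nonneg_right _ hlogY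
      linarith
    linarith

end Pool.Agent.Q240.PN
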