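import Pool.Agent.Q240.PN.Stm
import Pool.Agent.Helper923.PNT

/-! Project PN: Chebyshev lower bound. -/

set_option autoImplicit false

namespace Pool.Agent.Q240.PN

open Finset Filter Topology

theorem card_Ioc_primes {a b : ℕ} (hab : a ≤ b) :
    (((Ioc a b).filter Nat.Prime).card : ℝ) = (Nat.primeCounting b : ℝ) - Nat.primeCounting a := by
  have h : ∀ n : ℕ, Nat.primeCounting n = ((range (n + 1)).filter Nat.Prime).card := by
    intro n
    rw [Nat.primeCounting, Nat.primeCounting', Nat.count_eq_card_filter_range]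
  have h1 : (range (b + 1)).filter Nat.Prime = (range (a + 1)).filter Nat.Prime ∪ (Ioc a b).filter Nat.Prime := by
    ext x
    simp only [Finset.mem_filter, Finset.mem_range, Finset.mem_union, Finset.mem_Ioc]
    constructor
    · rintro ⟨h1, h2⟩
      by_cases hx : x < a + 1
      · left; exact ⟨hx, h2⟩
      · right; exact ⟨⟨by omega, by omega⟩, h2⟩
    · rintro (⟨h1, h2⟩ | ⟨h1, h2⟩)
      · exact ⟨by omega, h2⟩
      · exact ⟨by omega, h2⟩
  have h2 : Disjoint ((range (a + 1)).filter Nat.Prime) ((Ioc a b).filter Nat.Prime) := by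
    rw [Finset.disjoint_left]
    intro x hx hy
    simp only [Finset.mem_filter, Finset.mem_range, Finset.mem_Ioc] at hx hy
    omega
  rw [h, h, h1, Finset.card_union_of_disjoint h2]
  push_cast
  ring

theorem chl : S_CHL := by
  have hpi := Pool.Agent.Helper923.PNT.pi_tendsto
  have hlo := hpi.eventually_const_lt (u := 9 / 10) (by norm_num)
  have hhi := hpi.eventually_lt_const (u := 11 / 10) (by norm_num)
  rw [eventually_atTop] at hlo hhi
  obtain ⟨x1, hx1⟩ := hlo
  obtain ⟨x2, hx2⟩ := hhi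
  refine ⟨1 / 4, max (max x1 (2 * x2)) 1024, by norm_num, (by norm_num : (2:ℝ) ≤ 1024).trans (le_max_right _ _), ?_⟩
  intro x hx
  have hxa : x1 ≤ x := (le_max_left _ _).trans ((le_max_left _ _).trans hx)
  have hxb : 2 * x2 ≤ x := (le_max_right _ _).trans ((le_max_left _ _).trans hx)
  have hxc : 1024 ≤ x := (le_max_right _ _).trans hx
  have hx0 : 0 < x := by linarith
  have h1 := hx1 x hxa
  have h2 := hx2 (x / 2) (by linarith)
  have hlog : 10 * Real.log 2 ≤ Real.log x := by
    have : Real.log ((2 : ℝ) ^ 10) ≤ Real.log x := Real.log_le_log (by norm_num) (by norm_num; exact hxc)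
    rw [Real.log_pow] at this
    push_cast at this
    exact this
  have hl2 : 0 < Real.log 2 := Real.log_pos (by norm_num)
  have hlogx : 0 < Real.log x := by linarith
  have hlogh : Real.log (x / 2) = Real.log x - Real.log 2 := Real.log_div hx0.ne' (by norm_num)
  have hlogh9 : 9 / 10 * Real.log x ≤ Real.log (x / 2) := by rw [hlogh]; linarith
  have hle : ⌊x / 2⌋₊ ≤ ⌊x⌋₊ := Nat.floor_mono (by linarith)
  rw [card_Ioc_primes hle]
  have h3 : 9 / 10 * (x / Real.log x) ≤ (Nat.primeCounting ⌊x⌋₊ : ℝ) := by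
    rw [lt_div_iff₀ hx0] at h1
    rw [mul_div_assoc', div_le_iff₀ hlogx]
    linarith
  have h4 : (Nat.primeCounting ⌊x / 2⌋₊ : ℝ) ≤ 11 / 18 * (x / Real.log x) := by
    rw [div_lt_iff₀ (by linarith)] at h2
    have h5 : (Nat.primeCounting ⌊x / 2⌋₊ : ℝ) * (9 / 10 * Real.log x) ≤ 11 / 10 * (x / 2) := by
      have : (Nat.primeCounting ⌊x / 2⌋₊ : ℝ) * (9 / 10 * Real.log x) ≤
          (Nat.primeCounting ⌊x / 2⌋₊ : ℝ) * Real.log (x / 2) :=
        mul_le_mul_of_nonneg_left hlogh9 (by positivity)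
      linarith
    rw [mul_div_assoc', le_div_iff₀ hlogx]
    nlinarith
  have h5 : 1 / 4 * x / Real.log x = 1 / 4 * (x / Real.log x) := by ring
  rw [h5]
  have h6 : 0 < x / Real.log x := by positivity
  linarith

end Pool.Agent.Q240.PN
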