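import Mathlib

/-!
Definitions for project PN (MP_40f968_nt): records of (H(n) - 2) sqrt n on odd non-deficient numbers all of
whose proper divisors are deficient.
-/

set_option autoImplicit false

namespace Pool.Agent.Q240.PN

open Finset

/-- `H(n) = ∏_{p ∣ n} p / (p - 1)`. -/
noncomputable def H (n : ℕ) : ℝ := ∏ p ∈ n.primeFactors, (p : ℝ) / ((p : ℝ) - 1)

/-- `g(n) = (H(n) - 2) √n`. -/
noncomputable def g (n : ℕ) : ℝ := (H n - 2) * Real.sqrt n

/-- `n` is non-deficient: `σ(n) ≥ 2 n`. -/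
def NonDef (n : ℕ) : Prop := 2 * n ≤ ∑ d ∈ n.divisors, d

/-- `n` is non-deficient and every proper divisor of `n` is deficient. -/
def Prim (n : ℕ) : Prop := NonDef n ∧ ∀ d : ℕ, d ∣ n → d < n → ¬ NonDef d

/-- the record setters of `g` among the odd primitive non-deficient numbers -/
def B₂ : Set ℕ := {n | Odd n ∧ Prim n ∧ ∀ k < n, Odd k → Prim k → g k < g n}

/-- the element of index `j` (counted from `0`) of `B₂` in increasing order -/
noncomputable def b (j : ℕ) : ℕ := Nat.nth (· ∈ B₂) j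

/-- a finite set of odd primes -/
def OP (A : Finset ℕ) : Prop := ∀ p ∈ A, p.Prime ∧ p ≠ 2

/-- `∏ (1 + 1/p)`, that is `σ(m)/m` for the product `m` of the primes in `A` -/
noncomputable def hA (A : Finset ℕ) : ℝ := ∏ p ∈ A, (1 + 1 / (p : ℝ))

/-- `∏ p² / (p² - 1)` -/
noncomputable def RA (A : Finset ℕ) : ℝ := ∏ p ∈ A, ((p : ℝ) ^ 2 / ((p : ℝ) ^ 2 - 1))

/-- the supremum of `RA A` over the finite sets of odd primes with `hA A < 2` -/
noncomputable def W : ℝ := sSup {x : ℝ | ∃ A : Finset ℕ, OP A ∧ hA A < 2 ∧ x = RA A}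

end Pool.Agent.Q240.PN
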