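import Pool.Agent.Q240.PN.Stm

/-! Project PN: the final argument. -/

set_option autoImplicit false

namespace Pool.Agent.Q240.PN

open Finset Filter Topology

/-- below every odd primitive number there is a record with at least its value -/
theorem exists_record {n : ℕ} (hn : Odd n) (hp : Prim n) : ∃ k ∈ B₂, k ≤ n ∧ g n ≤ g k := by
  classical
  have hex : ∃ k : ℕ, Odd k ∧ Prim k ∧ g n ≤ g k := ⟨n, hn, hp, le_rfl⟩
  obtain ⟨h1, h2, h3⟩ := Nat.find_spec hex
  refine ⟨Nat.find hex, ⟨h1, h2, ?_⟩, Nat.find_min' hex ⟨hn, hp, le_rfl⟩, h3⟩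
  intro k hk hko hkp
  have := Nat.find_min hex hk
  by_contra hcon
  push Not at hcon
  exact this ⟨hko, hkp, h3.trans hcon⟩

/-- the values of `g` on the odd primitive numbers are unbounded -/
theorem unbounded (hB : S_BAS) (hC : S_CAND) (x : ℝ) : ∃ n : ℕ, Odd n ∧ Prim n ∧ x < g n := by
  obtain ⟨a, b, ha, hb, h⟩ := hC
  have hW : 9 / 8 ≤ W := hB.2.2.1.1
  -- choose `Y` with `b Y log Y > 2 log (4 (|x|+1))`
  obtain ⟨Y, n, hY, hY1, hn, hnp, hH, hlog⟩ := h (max (Real.exp 1) (2 * Real.log (4 * (|x| + 1)) / b + 1))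
  refine ⟨n, hn, hnp, ?_⟩
  have hn0 : 0 < n := hn.pos
  have hnr : (0 : ℝ) < n := by exact_mod_cast hn0
  have hYe : Real.exp 1 ≤ Y := (le_max_left _ _).trans hY
  have hY2 : 2 * Real.log (4 * (|x| + 1)) / b + 1 ≤ Y := (le_max_right _ _).trans hY
  have hY0 : 0 < Y := by linarith
  have hlY : 1 ≤ Real.log Y := by
    rw [Real.le_log_iff_exp_le hY0]
    exact hYe
  have hx0 : 0 < 4 * (|x| + 1) := by positivity
  have h1 : 2 * Real.log (4 * (|x| + 1)) < Real.log n := by
    have h2 : 2 * Real.log (4 * (|x| + 1)) / b < Y := by linarith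
    have h3 : 2 * Real.log (4 * (|x| + 1)) < Y * b := by
      rwa [div_lt_iff₀ hb] at h2
    have h4 : b * Y * 1 ≤ b * Y * Real.log Y := mul_le_mul_of_nonneg_left hlY (by positivity)
    nlinarith
  have h2 : 4 * (|x| + 1) < Real.sqrt n := by
    rw [← Real.log_lt_log_iff hx0 (Real.sqrt_pos.2 hnr), Real.log_sqrt hnr.le]
    linarith
  have h3 : (1 / 4 : ℝ) ≤ H n - 2 := by
    have h4 : 0 ≤ 2 * W * (a / Y ^ 2) := by positivity
    have h5 : 2 * W * (1 + a / Y ^ 2) = 2 * W + 2 * W * (a / Y ^ 2) := by ring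
    rw [h5] at hH
    linarith
  have h4 : (1 / 4 : ℝ) * Real.sqrt n ≤ g n := by
    unfold g
    exact mul_le_mul_of_nonneg_right h3 (Real.sqrt_nonneg _)
  have h5 := le_abs_self x
  linarith

theorem infinite (hB : S_BAS) (hC : S_CAND) : B₂.Infinite := by
  classical
  rw [Set.infinite_iff_exists_gt]
  intro N
  -- a bound for the values of `g` up to `N`
  obtain ⟨G, hG⟩ : ∃ G : ℝ, ∀ k ≤ N, g k ≤ G := by
    refine ⟨∑ k ∈ range (N + 1), |g k|, fun k hk => ?_⟩
    exact (le_abs_self _).trans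
      (Finset.single_le_sum (f := fun k => |g k|) (fun i _ => abs_nonneg _) (by simp; omega))
  obtain ⟨n, hn, hnp, hgn⟩ := unbounded hB hC G
  obtain ⟨k, hk, _, hgk⟩ := exists_record hn hnp
  refine ⟨k, hk, ?_⟩
  by_contra hcon
  push Not at hcon
  have := hG k hcon
  linarith

theorem b_mem (hinf : B₂.Infinite) (j : ℕ) : b j ∈ B₂ := Nat.nth_mem_of_infinite hinf j

theorem b_strictMono (hinf : B₂.Infinite) : StrictMono b := Nat.nth_strictMono hinf

theorem gb_strictMono (hinf : B₂.Infinite) : StrictMono (fun j => g (b j)) := by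
  intro i j hij
  have h1 := b_strictMono hinf hij
  exact (b_mem hinf j).2.2 (b i) h1 (b_mem hinf i).1 (b_mem hinf i).2.1

theorem exists_index {k : ℕ} (hk : k ∈ B₂) : ∃ j, b j = k := by
  classical
  exact ⟨Nat.count (· ∈ B₂) k, Nat.nth_count (p := (· ∈ B₂)) hk⟩

theorem eventually_small {c b : ℝ} (hc : 0 < c) (hb : 0 < b) : ∃ Y1 : ℝ, ∀ Y : ℝ, Y1 ≤ Y → Y ^ 2 * Real.exp (-(b * Y / 2)) < c := by
  have h1 : Tendsto (fun Y : ℝ => Y ^ 2 * Real.exp (-(b / 2) * Y)) atTop (𝓝 0) := by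
    have := tendsto_rpow_mul_exp_neg_mul_atTop_nhds_zero 2 (b / 2) (by positivity)
    simpa using this
  have h2 := (h1.eventually (gt_mem_nhds hc))
  rw [eventually_atTop] at h2
  obtain ⟨Y1, hY1⟩ := h2
  refine ⟨Y1, fun Y hY => ?_⟩
  have := hY1 Y hY
  have h3 : -(b / 2) * Y = -(b * Y / 2) := by ring
  rwa [h3] at this

theorem fin_of (hB : S_BAS) (hU : S_UP) (hC : S_CAND) (hS : S_SM) : S_FIN := by
  classical
  have hinf := infinite hB hC
  refine ⟨hinf, ?_⟩
  intro M0
  by_contra hcon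
  push Not at hcon
  -- the increments are bounded by `M ≥ 1`
  set M : ℝ := max M0 1 with hM
  have hM1 : 1 ≤ M := le_max_right _ _
  have hinc : ∀ j, g (b (j + 1)) - g (b j) ≤ M := fun j => (hcon j).trans (le_max_left _ _)
  have hW : 9 / 8 ≤ W := hB.2.2.1.1
  have hW0 : 0 < W := by linarith
  obtain ⟨a, β, ha, hβ, hcand⟩ := hC
  obtain ⟨Y1, hY12, hsm⟩ := hS (1 + 2 / a) β (by positivity) hβ
  obtain ⟨Y2, hY2⟩ := eventually_small (c := W * a / M) (b := β) (by positivity) hβ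
  obtain ⟨Y, n, hY, hYone, hn, hnp, hH, hlog⟩ :=
    hcand (max (max Y1 Y2) (max (Real.exp 1) (2 * Real.log (4 * (|g (b 0)| + 1)) / β + 1)))
  have hYY1 : Y1 ≤ Y := (le_max_left _ _).trans ((le_max_left _ _).trans hY)
  have hYY2 : Y2 ≤ Y := (le_max_right _ _).trans ((le_max_left _ _).trans hY)
  have hYe : Real.exp 1 ≤ Y := (le_max_left _ _).trans ((le_max_right _ _).trans hY)
  have hY3 : 2 * Real.log (4 * (|g (b 0)| + 1)) / β + 1 ≤ Y :=
    (le_max_right _ _).trans ((le_max_right _ _).trans hY)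
  have hY0 : 0 < Y := by linarith
  have hn0 : 0 < n := hn.pos
  have hnr : (0 : ℝ) < n := by exact_mod_cast hn0
  have hsn : 0 < Real.sqrt n := Real.sqrt_pos.2 hnr
  have hlY : 1 ≤ Real.log Y := by
    rw [Real.le_log_iff_exp_le hY0]
    exact hYe
  have hsqrt : 4 * (|g (b 0)| + 1) < Real.sqrt n := by
    have hx0 : 0 < 4 * (|g (b 0)| + 1) := by positivity
    have h1 : 2 * Real.log (4 * (|g (b 0)| + 1)) < Real.log n := by
      have h2 : 2 * Real.log (4 * (|g (b 0)| + 1)) / β < Y := by linarith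
      have h3 : 2 * Real.log (4 * (|g (b 0)| + 1)) < Y * β := by
        rwa [div_lt_iff₀ hβ] at h2
      have h4 : β * Y * 1 ≤ β * Y * Real.log Y := mul_le_mul_of_nonneg_left hlY (by positivity)
      nlinarith
    rw [← Real.log_lt_log_iff hx0 hsn, Real.log_sqrt hnr.le]
    linarith
  set z : ℝ := a / Y ^ 2 with hz
  have hz0 : 0 < z := by positivity
  set lo : ℝ := (2 * W * (1 + z / 2) - 2) * Real.sqrt n with hlo
  set hi : ℝ := (2 * W * (1 + z) - 2) * Real.sqrt n with hhi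
  have hgn : hi ≤ g n := by
    unfold g
    exact mul_le_mul_of_nonneg_right (by linarith) hsn.le
  have hlo1 : (1 / 4 : ℝ) ≤ 2 * W * (1 + z / 2) - 2 := by
    have : 0 ≤ 2 * W * (z / 2) := by positivity
    nlinarith
  have hlo2 : g (b 0) < lo := by
    have h1 : (1 / 4 : ℝ) * Real.sqrt n ≤ lo := mul_le_mul_of_nonneg_right hlo1 hsn.le
    have := le_abs_self (g (b 0))
    linarith
  have hlohi : lo ≤ hi := by
    apply mul_le_mul_of_nonneg_right _ hsn.le
    have : 0 ≤ 2 * W * (z / 2) := by positivity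
    nlinarith
  obtain ⟨k1, hk1, hk1n, hgk1⟩ := exists_record hn hnp
  obtain ⟨J, hJ⟩ := exists_index hk1
  have hgJ : hi ≤ g (b J) := by rw [hJ]; exact hgn.trans hgk1
  have hex : ∃ j, lo ≤ g (b j) := ⟨J, hlohi.trans hgJ⟩
  set j0 := Nat.find hex with hj0
  have hj0s : lo ≤ g (b j0) := Nat.find_spec hex
  have hj0J : j0 ≤ J := Nat.find_min' hex (hlohi.trans hgJ)
  have hj01 : 1 ≤ j0 := by
    by_contra hc
    have : j0 = 0 := by omega
    rw [this] at hj0s
    linarith
  have hprev : g (b (j0 - 1)) < lo := by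
    have := Nat.find_min hex (m := j0 - 1) (by omega)
    push Not at this
    exact this
  have hstep : ∀ i : ℕ, g (b (j0 - 1 + i)) ≤ g (b (j0 - 1)) + i * M := by
    intro i
    induction i with
    | zero => simp
    | succ i ih =>
      have := hinc (j0 - 1 + i)
      have h2 : j0 - 1 + (i + 1) = j0 - 1 + i + 1 := by ring
      rw [h2]
      push_cast
      linarith
  have hcount : hi - lo < ((J + 1 - j0 : ℕ) : ℝ) * M := by
    have h1 := hstep (J + 1 - j0)
    have h2 : j0 - 1 + (J + 1 - j0) = J := by omega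
    rw [h2] at h1
    linarith
  have hinj : Function.Injective b := (b_strictMono hinf).injective
  set T : Finset ℕ := (Icc j0 J).image b with hT
  have hTcard : T.card = J + 1 - j0 := by
    rw [hT, Finset.card_image_of_injective _ hinj, Nat.card_Icc]
  have hTprop : ∀ k ∈ T, 1 ≤ k ∧ k ≤ n ∧ Odd k ∧ ∀ p : ℕ, p.Prime → p ∣ k → (p : ℝ) ≤ (1 + 2 / a) * Y ^ 2 := by
    intro k hk
    rw [hT, Finset.mem_image] at hk
    obtain ⟨j, hj, rfl⟩ := hk
    rw [Finset.mem_Icc] at hj
    have hmem := b_mem hinf j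
    have hodd := hmem.1
    have hbn : b j ≤ n := by
      have : b j ≤ b J := (b_strictMono hinf).monotone hj.2
      rw [hJ] at this
      exact this.trans hk1n
    refine ⟨hodd.pos, hbn, hodd, ?_⟩
    intro p hp hpd
    have hup := hU (b j) hodd hmem.2.1 p hp hpd
    have hgk : lo ≤ g (b j) := hj0s.trans ((gb_strictMono hinf).monotone hj.1)
    have hkr : (0 : ℝ) < b j := by exact_mod_cast hodd.pos
    have hsk : 0 < Real.sqrt (b j) := Real.sqrt_pos.2 hkr
    have hskn : Real.sqrt (b j) ≤ Real.sqrt n := Real.sqrt_le_sqrt (by exact_mod_cast hbn)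
    have hHk : 2 * W * (1 + z / 2) ≤ H (b j) := by
      have h1 : (2 * W * (1 + z / 2) - 2) * Real.sqrt (b j) ≤ (H (b j) - 2) * Real.sqrt (b j) := by
        calc (2 * W * (1 + z / 2) - 2) * Real.sqrt (b j) ≤ lo :=
              mul_le_mul_of_nonneg_left hskn (by linarith)
          _ ≤ _ := hgk
      have := le_of_mul_le_mul_right h1 hsk
      linarith
    have hp2 : (2 : ℝ) ≤ p := by exact_mod_cast hp.two_le
    have hp1 : (0 : ℝ) < (p : ℝ) - 1 := by linarith
    have h2 : 1 + z / 2 < (p : ℝ) / ((p : ℝ) - 1) := by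
      have h3 : 2 * W * (1 + z / 2) < 2 * W * ((p : ℝ) / ((p : ℝ) - 1)) := lt_of_le_of_lt hHk hup
      exact lt_of_mul_lt_mul_left h3 (by positivity)
    rw [lt_div_iff₀ hp1] at h2
    have h3 : z / 2 * ((p : ℝ) - 1) < 1 := by linarith
    have h4 : (p : ℝ) - 1 < 2 / a * Y ^ 2 := by
      rw [hz] at h3
      have hY2pos : 0 < Y ^ 2 := by positivity
      have h5 : a * ((p : ℝ) - 1) < 2 * Y ^ 2 := by
        have h6 : a / Y ^ 2 / 2 * ((p : ℝ) - 1) = a * ((p : ℝ) - 1) / (2 * Y ^ 2) := by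
          field_simp
        rw [h6, div_lt_one (by positivity)] at h3
        exact h3
      have h7 : 2 / a * Y ^ 2 = 2 * Y ^ 2 / a := by ring
      rw [h7, lt_div_iff₀ ha]
      linarith
    have h5 : (1 : ℝ) ≤ Y ^ 2 := by nlinarith
    nlinarith
  have hsmall := hsm Y hYY1 n hlog T hTprop
  rw [hTcard] at hsmall
  have h1 := hY2 Y hYY2
  have hM0 : 0 < M := by linarith
  have hdiff : hi - lo = W * z * Real.sqrt n := by
    rw [hhi, hlo]; ring
  have h2 : W * z * Real.sqrt n < Real.sqrt n * Real.exp (-(β * Y / 2)) * M := by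
    calc W * z * Real.sqrt n = hi - lo := hdiff.symm
      _ < ((J + 1 - j0 : ℕ) : ℝ) * M := hcount
      _ ≤ Real.sqrt n * Real.exp (-(β * Y / 2)) * M := mul_le_mul_of_nonneg_right hsmall hM0.le
  have h3 : W * z < Real.exp (-(β * Y / 2)) * M := by
    have h4 : Real.sqrt n * (W * z) < Real.sqrt n * (Real.exp (-(β * Y / 2)) * M) := by nlinarith
    exact lt_of_mul_lt_mul_left h4 hsn.le
  have h4 : W * a < Y ^ 2 * Real.exp (-(β * Y / 2)) * M := by
    have h5 : W * a = Y ^ 2 * (W * z) := by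
      rw [hz]; field_simp
    rw [h5]
    have : Y ^ 2 * (W * z) < Y ^ 2 * (Real.exp (-(β * Y / 2)) * M) :=
      mul_lt_mul_of_pos_left h3 (by positivity)
    linarith
  have h5 : Y ^ 2 * Real.exp (-(β * Y / 2)) * M < W * a := by
    rwa [lt_div_iff₀ hM0] at h1
  linarith

end Pool.Agent.Q240.PN
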