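import Pool.Agent.Q240.PN.Stm

/-! Project PN: the sum of `1/p` over `(Y, Y^(7/5)]` is bounded below. -/

set_option autoImplicit false

namespace Pool.Agent.Q240.PN

open Finset

theorem mid (h : S_CHL) : S_MID := by
  obtain ⟨c, x0, hc, hx0, hch⟩ := h
  refine ⟨5 * c / 14, max x0 (Real.exp 14), by positivity, ?_, ?_⟩
  · exact le_trans (by linarith) (le_max_left x0 _)
  intro Y hY
  have hYx : x0 ≤ Y := (le_max_left _ _).trans hY
  have hYe : Real.exp 14 ≤ Y := (le_max_right _ _).trans hY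
  have hY0 : 0 < Y := (Real.exp_pos _).trans_le hYe
  have hY1 : 1 ≤ Y := by linarith
  have hl : 14 ≤ Real.log Y := by rwa [Real.le_log_iff_exp_le hY0]
  have hl2 : 0 < Real.log 2 := Real.log_pos (by norm_num)
  have hl2' : Real.log 2 < 0.7 := by have := Real.log_two_lt_d9; norm_num at this ⊢; linarith
  -- induction over dyadic blocks
  have key : ∀ J : ℕ, (2 : ℝ) ^ J * Y ≤ Y ^ ((7 : ℝ) / 5) →
      (J : ℝ) * (c / (7 / 5 * Real.log Y)) ≤ ∑ p ∈ (Ioc ⌊Y⌋₊ ⌊(2 : ℝ) ^ J * Y⌋₊).filter Nat.Prime, 1 / (p : ℝ) := by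
    intro J
    induction J with
    | zero => intro _; simp
    | succ J ih =>
      intro hJ
      have hJ' : (2 : ℝ) ^ J * Y ≤ Y ^ ((7 : ℝ) / 5) := by
        refine le_trans ?_ hJ
        rw [pow_succ]
        have : 0 < (2 : ℝ) ^ J * Y := by positivity
        nlinarith
      have ih' := ih hJ'
      set x : ℝ := (2 : ℝ) ^ (J + 1) * Y with hx
      have hxY : Y ≤ x := by
        have : (1 : ℝ) ≤ 2 ^ (J + 1) := one_le_pow₀ (by norm_num)
        nlinarith
      have hx0' : 0 < x := by linarith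
      have hx2 : x / 2 = (2 : ℝ) ^ J * Y := by rw [hx, pow_succ]; ring
      have hcx := hch x (by linarith)
      have hlogx : 0 < Real.log x := by
        have := Real.log_le_log hY0 hxY
        linarith
      have hlogx7 : Real.log x ≤ 7 / 5 * Real.log Y := by
        have := Real.log_le_log hx0' hJ
        rwa [Real.log_rpow hY0] at this
      rw [hx2] at hcx
      have hsum : c / (7 / 5 * Real.log Y) ≤ ∑ p ∈ (Ioc ⌊(2 : ℝ) ^ J * Y⌋₊ ⌊x⌋₊).filter Nat.Prime, 1 / (p : ℝ) := by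
        calc c / (7 / 5 * Real.log Y) ≤ c / Real.log x :=
              div_le_div_of_nonneg_left hc.le hlogx hlogx7
          _ = (c * x / Real.log x) * (1 / x) := by field_simp
          _ ≤ (((Ioc ⌊(2 : ℝ) ^ J * Y⌋₊ ⌊x⌋₊).filter Nat.Prime).card : ℝ) * (1 / x) :=
              mul_le_mul_of_nonneg_right hcx (by positivity)
          _ = ∑ p ∈ (Ioc ⌊(2 : ℝ) ^ J * Y⌋₊ ⌊x⌋₊).filter Nat.Prime, 1 / x := by
              rw [Finset.sum_const, nsmul_eq_mul]
          _ ≤ _ := by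
              apply Finset.sum_le_sum
              intro p hp
              rw [mem_filter, mem_Ioc] at hp
              have hp0 : (0 : ℝ) < p := by exact_mod_cast hp.2.pos
              have hpx : (p : ℝ) ≤ x := (Nat.le_floor_iff hx0'.le).1 hp.1.2
              exact one_div_le_one_div_of_le hp0 hpx
      have hunion : (Ioc ⌊Y⌋₊ ⌊x⌋₊).filter Nat.Prime = (Ioc ⌊Y⌋₊ ⌊(2 : ℝ) ^ J * Y⌋₊).filter Nat.Prime ∪
          (Ioc ⌊(2 : ℝ) ^ J * Y⌋₊ ⌊x⌋₊).filter Nat.Prime := by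
        have h1 : ⌊Y⌋₊ ≤ ⌊(2 : ℝ) ^ J * Y⌋₊ := by
          apply Nat.floor_mono
          have : (1 : ℝ) ≤ 2 ^ J := one_le_pow₀ (by norm_num)
          nlinarith
        have h2 : ⌊(2 : ℝ) ^ J * Y⌋₊ ≤ ⌊x⌋₊ := by
          apply Nat.floor_mono
          rw [← hx2]
          linarith
        ext q
        simp only [mem_filter, mem_Ioc, mem_union]
        constructor
        · rintro ⟨⟨h3, h4⟩, h5⟩
          by_cases hq : q ≤ ⌊(2 : ℝ) ^ J * Y⌋₊
          · left; exact ⟨⟨h3, hq⟩, h5⟩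
          · right; exact ⟨⟨by omega, h4⟩, h5⟩
        · rintro (⟨⟨h3, h4⟩, h5⟩ | ⟨⟨h3, h4⟩, h5⟩)
          · exact ⟨⟨h3, by omega⟩, h5⟩
          · exact ⟨⟨by omega, h4⟩, h5⟩
      have hdisj : Disjoint ((Ioc ⌊Y⌋₊ ⌊(2 : ℝ) ^ J * Y⌋₊).filter Nat.Prime)
          ((Ioc ⌊(2 : ℝ) ^ J * Y⌋₊ ⌊x⌋₊).filter Nat.Prime) := by
        rw [Finset.disjoint_left]
        intro q hq hq'
        simp only [mem_filter, mem_Ioc] at hq hq'
        omega
      rw [hunion, Finset.sum_union hdisj]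
      push_cast
      linarith
  set J : ℕ := ⌊2 / 5 * Real.log Y / Real.log 2⌋₊ with hJ
  have hJ1 : (J : ℝ) ≤ 2 / 5 * Real.log Y / Real.log 2 := Nat.floor_le (by positivity)
  have hJ2 : 2 / 5 * Real.log Y / Real.log 2 < (J : ℝ) + 1 := Nat.lt_floor_add_one _
  have hJY : (2 : ℝ) ^ J * Y ≤ Y ^ ((7 : ℝ) / 5) := by
    rw [le_div_iff₀ hl2] at hJ1
    have h1 : (0 : ℝ) < (2 : ℝ) ^ J * Y := by positivity
    have h2 : (0 : ℝ) < Y ^ ((7 : ℝ) / 5) := by positivity
    rw [← Real.log_le_log_iff h1 h2, Real.log_mul (by positivity) hY0.ne', Real.log_pow, Real.log_rpow hY0]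
    linarith
  have hJ3 : 1 / 2 * Real.log Y ≤ J := by
    rw [div_lt_iff₀ hl2] at hJ2
    by_contra hcon
    push Not at hcon
    have h3 : ((J : ℝ) + 1) * Real.log 2 ≤ ((J : ℝ) + 1) * 0.7 :=
      mul_le_mul_of_nonneg_left hl2'.le (by positivity)
    norm_num at h3
    linarith
  have hfin := key J hJY
  have h5 : 5 * c / 14 ≤ (J : ℝ) * (c / (7 / 5 * Real.log Y)) := by
    have hlY : 0 < Real.log Y := by linarith
    calc 5 * c / 14 = (1 / 2 * Real.log Y) * (c / (7 / 5 * Real.log Y)) := by field_simp; norm_num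
      _ ≤ _ := mul_le_mul_of_nonneg_right hJ3 (by positivity)
  refine (h5.trans hfin).trans ?_
  apply Finset.sum_le_sum_of_subset_of_nonneg
  · intro p hp
    rw [mem_filter, mem_Ioc] at hp ⊢
    exact ⟨⟨hp.1.1, hp.1.2.trans (Nat.floor_mono hJY)⟩, hp.2⟩
  · intro p _ _
    positivity

end Pool.Agent.Q240.PN
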