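import Pool.Agent.Q240.PN.Bas

/-! Project PN: near-optimal sets have a small defect on every initial segment. -/

set_option autoImplicit false

namespace Pool.Agent.Q240.PN

open Finset Filter Topology

theorem one_add_sum_le (A : Finset ℕ) (f : ℕ → ℝ) (hf : ∀ p ∈ A, 0 ≤ f p) :
    1 + ∑ p ∈ A, f p ≤ ∏ p ∈ A, (1 + f p) := by
  classical
  induction A using Finset.induction_on with
  | empty => simp
  | insert a A ha ih =>
    rw [Finset.prod_insert ha, Finset.sum_insert ha]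
    have h1 := hf a (Finset.mem_insert_self _ _)
    have h2 := ih (fun p hp => hf p (Finset.mem_insert_of_mem hp))
    have h3 : 0 ≤ ∑ p ∈ A, f p := Finset.sum_nonneg (fun p hp => hf p (Finset.mem_insert_of_mem hp))
    nlinarith

/-- the product of `1 + 1/p` over the primes of `(K, N]` is large -/
theorem exists_prod_ge (K : ℕ) : ∃ N : ℕ, K ≤ N ∧ 2 ≤ ∏ p ∈ (Ioc K N).filter Nat.Prime, (1 + 1 / (p : ℝ)) := by
  have hns := not_summable_one_div_on_primes
  rw [not_summable_iff_tendsto_nat_atTop_of_nonneg] at hns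
  swap
  · intro n
    apply Set.indicator_nonneg
    intro x _
    positivity
  obtain ⟨N, hKN, hN⟩ := ((eventually_ge_atTop (K + 1)).and (hns.eventually_ge_atTop
    (1 + ∑ i ∈ range (K + 1), Set.indicator {p : ℕ | p.Prime} (fun n : ℕ => (1 : ℝ) / n) i))).exists
  refine ⟨N, by omega, ?_⟩
  have h1 : ∑ i ∈ range N, Set.indicator {p : ℕ | p.Prime} (fun n : ℕ => (1 : ℝ) / n) i =
      ∑ i ∈ range (K + 1), Set.indicator {p : ℕ | p.Prime} (fun n : ℕ => (1 : ℝ) / n) i +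
      ∑ i ∈ Ico (K + 1) N, Set.indicator {p : ℕ | p.Prime} (fun n : ℕ => (1 : ℝ) / n) i := by
    rw [Finset.sum_range_add_sum_Ico _ hKN]
  have h2 : 1 ≤ ∑ i ∈ Ico (K + 1) N, Set.indicator {p : ℕ | p.Prime} (fun n : ℕ => (1 : ℝ) / n) i := by
    linarith
  have h3 : ∑ i ∈ Ico (K + 1) N, Set.indicator {p : ℕ | p.Prime} (fun n : ℕ => (1 : ℝ) / n) i ≤
      ∑ p ∈ (Ioc K N).filter Nat.Prime, 1 / (p : ℝ) := by
    rw [Finset.sum_filter]
    calc ∑ i ∈ Ico (K + 1) N, Set.indicator {p : ℕ | p.Prime} (fun n : ℕ => (1 : ℝ) / n) i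
        = ∑ i ∈ Ico (K + 1) N, if i.Prime then 1 / (i : ℝ) else 0 := by
          apply Finset.sum_congr rfl
          intro i _
          rw [Set.indicator_apply]
          rfl
      _ ≤ _ := by
          apply Finset.sum_le_sum_of_subset_of_nonneg
          · intro i hi
            rw [mem_Ico] at hi
            rw [mem_Ioc]
            omega
          · intro i _ _
            split_ifs
            · positivity
            · exact le_rfl
  have h4 := one_add_sum_le ((Ioc K N).filter Nat.Prime) (fun p => 1 / (p : ℝ)) (fun p _ => by positivity)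
  linarith

theorem hA_insert {A : Finset ℕ} {p : ℕ} (hp : p ∉ A) : hA (insert p A) = hA A * (1 + 1 / (p : ℝ)) := by
  unfold hA
  rw [Finset.prod_insert hp, mul_comm]

theorem RA_insert {A : Finset ℕ} {p : ℕ} (hp : p ∉ A) :
    RA (insert p A) = RA A * ((p : ℝ) ^ 2 / ((p : ℝ) ^ 2 - 1)) := by
  unfold RA
  rw [Finset.prod_insert hp, mul_comm]

theorem one_le_hA (A : Finset ℕ) : 1 ≤ hA A := by
  apply one_le_prod'
  intro p _
  have : (0 : ℝ) ≤ 1 / (p : ℝ) := by positivity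
  linarith

theorem hA_mono {A B : Finset ℕ} (h : A ⊆ B) : hA A ≤ hA B := by
  unfold hA
  rw [← Finset.prod_sdiff h]
  have h1 : (1 : ℝ) ≤ ∏ x ∈ B \ A, (1 + 1 / (x : ℝ)) := one_le_hA _
  have h2 : (1 : ℝ) ≤ ∏ x ∈ A, (1 + 1 / (x : ℝ)) := one_le_hA _
  nlinarith

theorem st1 (hB : S_BAS) : S_ST1 := by
  classical
  intro ε1' hε1'
  -- reduce to `ε1 ≤ 1/3`
  set ε1 : ℝ := min ε1' (1 / 3) with hε1def
  have hε1 : 0 < ε1 := lt_min hε1' (by norm_num)
  have hε3 : ε1 ≤ 1 / 3 := min_le_right _ _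
  set K : ℕ := ⌈1 / ε1⌉₊ with hK
  have hK1 : 1 / ε1 ≤ K := Nat.le_ceil _
  have hK3 : (3 : ℝ) ≤ K := by
    have : (3 : ℝ) ≤ 1 / ε1 := by
      rw [le_div_iff₀ hε1]; linarith
    linarith
  obtain ⟨N, hKN, hN⟩ := exists_prod_ge K
  have hNr : (3 : ℝ) ≤ N := by
    have : (K : ℝ) ≤ N := by exact_mod_cast hKN
    linarith
  set η : ℝ := 1 / ((N : ℝ) ^ 2 - 1) with hη
  have hN8 : (8 : ℝ) ≤ (N : ℝ) ^ 2 - 1 := by nlinarith
  have hη0 : 0 < η := by positivity
  have hη1 : η ≤ 1 / 8 := by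
    rw [hη]
    exact one_div_le_one_div_of_le (by norm_num) hN8
  refine ⟨⌈4 / η⌉₊ + 1, η / 4, by omega, by positivity, ?_⟩
  intro A hOP hA2 hRA t ht
  by_contra hcon
  push Not at hcon
  have htr : 4 / η ≤ t := by
    have h1 : 4 / η ≤ ⌈4 / η⌉₊ := Nat.le_ceil _
    have h2 : ((⌈4 / η⌉₊ + 1 : ℕ) : ℝ) ≤ t := by exact_mod_cast ht
    push_cast at h2
    linarith
  have ht1 : 1 ≤ t := by omega
  set k := A.filter (fun p => p ≤ t) with hk
  have hkA : k ⊆ A := Finset.filter_subset _ _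
  have hkOP : OP k := fun p hp => hOP p (hkA hp)
  have hcon1 : ε1 < 2 / hA k - 1 := lt_of_le_of_lt (min_le_left _ _) hcon
  have hk1 := one_le_hA k
  have hkε : hA k * (1 + ε1) < 2 := by
    have h1 : 1 + ε1 < 2 / hA k := by linarith
    rw [lt_div_iff₀ (by linarith)] at h1
    linarith
  -- a missing prime
  obtain ⟨p, hp, hpA⟩ : ∃ p ∈ (Ioc K N).filter Nat.Prime, p ∉ A := by
    by_contra hc
    push Not at hc
    have h1 : (Ioc K N).filter Nat.Prime ⊆ A := fun p hp => hc p hp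
    have h2 := hA_mono h1
    unfold hA at h2
    unfold hA at hA2
    linarith
  rw [mem_filter, mem_Ioc] at hp
  obtain ⟨⟨hKp, hpN⟩, hpp⟩ := hp
  have hpr : (K : ℝ) < p := by exact_mod_cast hKp
  have hpNr : (p : ℝ) ≤ N := by exact_mod_cast hpN
  have hp0 : (0 : ℝ) < p := by linarith
  have hpk : p ∉ k := fun h => hpA (hkA h)
  have hp1 : 1 / (p : ℝ) < ε1 := by
    rw [div_lt_iff₀ hp0]
    have h1 : 1 / ε1 < p := by linarith
    rw [div_lt_iff₀ hε1] at h1
    linarith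
  have hins : hA (insert p k) < 2 := by
    rw [hA_insert hpk]
    nlinarith
  have hinsOP : OP (insert p k) := by
    intro q hq
    rw [Finset.mem_insert] at hq
    rcases hq with rfl | hq
    · refine ⟨hpp, ?_⟩
      rintro rfl
      norm_num at hpr
      linarith
    · exact hkOP q hq
  have hR1 := hB.2.1 _ hinsOP hins
  rw [RA_insert hpk] at hR1
  have hRk1 := (hB.1 k hkOP).1
  have hfac : 1 + η ≤ (p : ℝ) ^ 2 / ((p : ℝ) ^ 2 - 1) := by
    have h1 : (0 : ℝ) < (p : ℝ) ^ 2 - 1 := by nlinarith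
    have h2 : (p : ℝ) ^ 2 / ((p : ℝ) ^ 2 - 1) = 1 + 1 / ((p : ℝ) ^ 2 - 1) := by
      field_simp
      ring
    rw [h2, hη]
    have h3 : (p : ℝ) ^ 2 - 1 ≤ (N : ℝ) ^ 2 - 1 := by nlinarith
    have := one_div_le_one_div_of_le h1 h3
    linarith
  have hR2 : RA k * (1 + η) ≤ W := by
    have : RA k * (1 + η) ≤ RA k * ((p : ℝ) ^ 2 / ((p : ℝ) ^ 2 - 1)) :=
      mul_le_mul_of_nonneg_left hfac (by linarith)
    linarith
  have htail : RA (A \ k) ≤ 1 + 1 / (t : ℝ) := by
    apply hB.2.2.2.2 (A \ k) (fun q hq => hOP q (Finset.sdiff_subset hq)) t ht1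
    intro q hq
    rw [Finset.mem_sdiff, hk, Finset.mem_filter] at hq
    by_contra hc
    push Not at hc
    exact hq.2 ⟨hq.1, hc⟩
  have hsplit : RA A = RA (A \ k) * RA k := by
    unfold RA
    rw [Finset.prod_sdiff hkA]
  have htη : 1 / (t : ℝ) ≤ η / 4 := by
    have ht0 : (0 : ℝ) < t := by exact_mod_cast ht1
    rw [div_le_iff₀ ht0]
    rw [div_le_iff₀ hη0] at htr
    nlinarith
  have hR3 : RA A ≤ (1 + η / 4) * RA k := by
    rw [hsplit]
    exact mul_le_mul_of_nonneg_right (by linarith) (by linarith)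
  have hW : 9 / 8 ≤ W := hB.2.2.1.1
  -- `W (1 - η/4) (1 + η) ≤ (1 + η/4) W`
  have h1 : W * (1 - η / 4) * (1 + η) ≤ (1 + η / 4) * W := by
    calc W * (1 - η / 4) * (1 + η) ≤ RA A * (1 + η) := mul_le_mul_of_nonneg_right hRA (by linarith)
      _ ≤ (1 + η / 4) * RA k * (1 + η) := mul_le_mul_of_nonneg_right hR3 (by linarith)
      _ = (1 + η / 4) * (RA k * (1 + η)) := by ring
      _ ≤ (1 + η / 4) * W := mul_le_mul_of_nonneg_left hR2 (by linarith)
  have h2 : (1 - η / 4) * (1 + η) ≤ 1 + η / 4 := by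
    have h3 : W * ((1 - η / 4) * (1 + η)) ≤ W * (1 + η / 4) := by nlinarith
    exact le_of_mul_le_mul_left h3 (by linarith)
  nlinarith

end Pool.Agent.Q240.PN
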