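import Pool.Agent.Q240.PN.Defs

/-!
Statements for project PN (MP_40f968_nt), each with its complete proof in the docstring.

Overview. For an odd primitive non-deficient `n` and a prime `p ∣ n` one has `H n < 2 W p/(p-1)` (S_UP), so a
large value of `H n` forces `n` to be smooth. On the other hand there are `n` with
`H n ≥ 2 W (1 + a/Y²)` and `log n ≥ b Y log Y`, `Y` arbitrarily large (S_CAND). If the increments of the record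
values were bounded, there would be many records `k ≤ n` with `H k ≥ 2 W (1 + a/(2Y²))`, all of them
`K Y²`-smooth, more than the number of all such integers up to `n` (S_SM).
-/

set_option autoImplicit false

namespace Pool.Agent.Q240.PN

open Finset

/-- BAS. Basic facts.
(1) `1 ≤ RA A ≤ 3/2` for every finite set `A` of odd primes: each factor is `≥ 1`, and
`∏_{p ∈ A} p²/(p²-1) ≤ ∏_{m=3}^{N} m²/((m-1)(m+1)) = (N/2)(3/(N+1)) ≤ 3/2` (telescoping) if `A ⊆ [3, N]`.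
(2) if `hA A < 2` then `RA A ≤ W` (the set in the definition of `W` is bounded above by (1)).
(3) `9/8 ≤ W` (take `A = {3}`) and `W ≤ 3/2` (the set is nonempty).
(4) for `δ > 0` there is `A` with `hA A < 2` and `W (1 - δ) < RA A` (since `W (1-δ) < W`, definition of sSup).
(5) tail: if all `p ∈ A` are `> T ≥ 1` then `RA A ≤ ∏_{m=T+1}^{N} m²/((m-1)(m+1)) = (N/T)((T+1)/(N+1)) ≤ 1 + 1/T`. -/
def S_BAS : Prop :=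
  (∀ A : Finset ℕ, OP A → 1 ≤ RA A ∧ RA A ≤ 3 / 2) ∧
  (∀ A : Finset ℕ, OP A → hA A < 2 → RA A ≤ W) ∧
  (9 / 8 ≤ W ∧ W ≤ 3 / 2) ∧
  (∀ δ : ℝ, 0 < δ → ∃ A : Finset ℕ, OP A ∧ hA A < 2 ∧ W * (1 - δ) < RA A) ∧
  (∀ A : Finset ℕ, OP A → ∀ T : ℕ, 1 ≤ T → (∀ p ∈ A, T < p) → RA A ≤ 1 + 1 / (T : ℝ))

/-- UP. Hypothesis allowed: S_BAS. For an odd primitive non-deficient `n` and a prime `p ∣ n`:
`H n < 2 W p/(p-1)`. Proof: `k = n/p < n` divides `n`, so `σ(k) < 2 k`. Let `A = k.primeFactors` (odd primes).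
`n.primeFactors = insert p A`, so `H n ≤ (p/(p-1)) ∏_{q ∈ A} q/(q-1)` (equality if `p ∉ A`, and if `p ∈ A` use
`p/(p-1) ≥ 1`). Now `q/(q-1) = (1+1/q) (q²/(q²-1))`, so `∏_{q ∈ A} q/(q-1) = hA A * RA A`. Also
`hA A ≤ σ(k)/k < 2`: by `Nat.sum_divisors` `σ(k)/k = ∏_{q ∈ A} (1 + q + ... + q^a)/q^a` and each factor is
`≥ 1 + 1/q` as `a ≥ 1` (compare `two_le_H` in `Pool/Agent/Results/MP_e83726_nt/UnboundedGaps.lean`). So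
`RA A ≤ W` by S_BAS (2) and `H n ≤ (p/(p-1)) hA A RA A < (p/(p-1)) 2 W`. -/
def S_UP : Prop := ∀ n : ℕ, Odd n → Prim n → ∀ p : ℕ, p.Prime → p ∣ n →
  H n < 2 * W * ((p : ℝ) / ((p : ℝ) - 1))

/-- CHL. Chebyshev lower bound in `(x/2, x]`. From the prime number theorem of the library
(`Pool.Agent.Helper923.PNT.pi_tendsto`, used as in `Pool/Agent/H325R2/PPPnt.lean`). -/
def S_CHL : Prop := ∃ c x0 : ℝ, 0 < c ∧ 2 ≤ x0 ∧ ∀ x : ℝ, x0 ≤ x →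
  c * x / Real.log x ≤ (((Ioc ⌊x / 2⌋₊ ⌊x⌋₊).filter Nat.Prime).card : ℝ)

/-- MID. Hypothesis allowed: S_CHL. Proof: for `1 ≤ j ≤ J`, where `J = ⌊(2/5) log Y / log 2⌋`, the primes
in `(2^(j-1) Y, 2^j Y]` contribute `≥ (c 2^j Y / log (2^j Y)) / (2^j Y) ≥ c / ((7/5) log Y)`; these
intervals are disjoint and inside `(Y, Y^(7/5)]`, and `J ≥ (1/2) log Y` for `Y` large (as
`(2/5)/log 2 > 0.57`), so the sum is `≥ c (1/2) (5/7) = 5c/14`. -/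
def S_MID : Prop := ∃ c Y0 : ℝ, 0 < c ∧ 1 ≤ Y0 ∧ ∀ Y : ℝ, Y0 ≤ Y →
  c ≤ ∑ p ∈ (Ioc ⌊Y⌋₊ ⌊Y ^ ((7 : ℝ) / 5)⌋₊).filter Nat.Prime, 1 / (p : ℝ)

/-- ST1. Hypothesis allowed: S_BAS. Proof: we may assume `ε1 ≤ 1/3`. Since `∏_{1/ε1 < p ≤ N} (1 + 1/p)`
tends to infinity with `N` (divergence of the sum of the reciprocals of the primes, in Mathlib:
`Nat.Primes.not_summable_one_div` or similar), fix `N` with `∏_{1/ε1 < p ≤ N} (1 + 1/p) ≥ 2`. Put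
`η = 1/(N²-1)`, `δ0 = η/4`, `t0 ≥ 4/η` (and `t0 ≥ 1`). Let `A`, `t` be as in the statement, `k = A ∩ [1,t]`
and suppose `2 / hA k - 1 > ε1`. Not all primes of `(1/ε1, N]` are in `A`, for otherwise `hA A ≥ 2`. So there
is a prime `p ∉ A`, `1/ε1 < p ≤ N` (so `p ≥ 3` is odd). Then `hA (insert p k) = hA k (1+1/p) < hA k (1+ε1)
< 2`, so `RA (insert p k) ≤ W` by S_BAS (2), that is `RA k (1 + 1/(p²-1)) ≤ W`, so `RA k (1+η) ≤ W`. The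
primes of `A \ k` are `> t`, so by S_BAS (5) `RA A = RA k RA (A \ k) ≤ RA k (1 + 1/t)`. So
`W (1-δ0) ≤ RA A ≤ W (1+1/t)/(1+η)`, `(1-η/4)(1+η) ≤ 1 + 1/t ≤ 1 + η/4`; but
`(1-η/4)(1+η) = 1 + 3η/4 - η²/4 ≥ 1 + η/2 > 1 + η/4` because `0 < η ≤ 1`. Contradiction. -/
def S_ST1 : Prop := ∀ ε1 : ℝ, 0 < ε1 → ∃ (t0 : ℕ) (δ0 : ℝ), 1 ≤ t0 ∧ 0 < δ0 ∧ ∀ A : Finset ℕ, OP A → hA A < 2 →
  W * (1 - δ0) ≤ RA A → ∀ t : ℕ, t0 ≤ t → 2 / hA (A.filter (fun p => p ≤ t)) - 1 ≤ ε1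

/-- NEAR. Hypotheses allowed: S_BAS, S_ST1, S_MID. Proof, with `C2 = 3`. Let `c > 0` (we may assume `c ≤ 1`)
and `Y0` be given. Let `c''`, `Y00` be the constants of S_MID. Choose `Z ≥ max (1, Y0, Y00)` with
`Z ≥ t0(c''/2) + 1` (the `t0` of S_ST1 for `ε1 = c''/2`) and `Z^(1/5) > 5/c`, and `Z > 2`. Fix an integer
`t ≥ max (t0(c''/2), t0(1/Z))`, `t ≥ 1`. There are finitely many sets `k` of odd primes `≤ t` with `hA k < 2`;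
let `e > 0` be the minimum of `2 / hA k - 1` over them. Put `δ = min (δ0(c''/2), δ0(1/Z), e³)` (and `δ < 1`) and
let `B` be a finite set of odd primes with `hA B < 2`, `RA B > W (1-δ)` (S_BAS (4)). Let
`A = B ∩ [1,t]`, `R = B \ A`, `ε = 2 / hA A - 1`, `Y = 1/ε`. So `hA A (1 + 1/Y) = 2`, `ε ≥ e`, `δ ≤ ε³`, and
`ε ≤ 1/Z` by S_ST1, so `Y ≥ Z ≥ Y0`.
Remaining primes: `hA R = hA B / hA A < 2 / hA A = 1 + ε`. All `p ∈ R` are `> t`, and `> Y` since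
`1 + 1/p ≤ hA R < 1 + ε`. Also `∑_{p ∈ R} 1/p ≤ (6/5) ∑ log (1+1/p) ≤ (6/5) log (1+ε) ≤ (6/5) ε` (for `p ≥ 3`:
`log (1+u) ≥ u - u²/2 ≥ (5/6) u`, `u = 1/p ≤ 1/3`; or use directly `1 + ∑ 1/p ≤ ∏ (1+1/p) < 1 + ε`, which
even gives `∑_{p ∈ R} 1/p < ε`). So `∑_{R} 1/p² ≤ ε min (1/t, ε)` and
`log RA R = ∑_R -log (1-1/p²) ≤ (9/8) ∑_R 1/p² ≤ (9/8) ε min (1/t, ε)` (as `p² ≥ 9`). (5)
First consequence: `RA A = RA B / RA R ≥ W (1-δ) exp (-(9/8) ε²) ≥ W (1 - δ - (9/8) ε²) ≥ W (1 - 3 ε²)`.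
It remains to prove `t ≤ c Y²` (all `p ∈ A` are `≤ t`). Suppose `t > c Y²`, so `1/t < ε²/c`. By (5),
`RA A ≥ W (1-δ) exp (-(9/8) ε³/c) ≥ W (1 - v)` with `v = (17/8) ε³/c` (`δ ≤ ε³ ≤ ε³/c`).
(i) There is a prime `p ∉ A` with `Y < p ≤ Y^(7/5)`. For otherwise all primes `p` in
`(Y, Y^(7/5)]` are in `A`, so by S_MID `hA (A ∩ (Y, ∞)) ≥ 1 + ∑ 1/p ≥ 1 + c''`, and with
`s = min (t, ⌊Y⌋)` one has `A ∩ [1,Y] = B ∩ [1,s]` and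
`hA (B ∩ [1,s]) = hA A / hA (A ∩ (Y,∞)) ≤ 2/(1+c'')`, so `2 / hA (B ∩ [1,s]) - 1 ≥ c''`, but S_ST1 with
`ε1 = c''/2` gives `≤ c''/2` because `s ≥ t0(c''/2)` (`Y ≥ Z ≥ t0(c''/2) + 1`). Contradiction.
(ii) `p > Y ≥ Z > 2` is odd, `hA (insert p A) = hA A (1+1/p) < hA A (1+1/Y) = 2`, so `RA (insert p A) ≤ W`;
`RA (insert p A) = RA A p²/(p²-1) ≥ W (1-v) (1+1/p²)`. So `(1-v)(1+1/p²) ≤ 1`, whence
`1/p² ≤ 2 v` (if `v ≤ 1/2`, which holds as `Y³ ≥ Z³ ≥ 5/c`), so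
`p² ≥ 1/(2v) = (4/17) c Y³`. But `p² ≤ Y^(14/5)`, so `Y^(1/5) ≤ 17/(4c) < 5/c`, contradiction. -/
def S_NEAR : Prop := ∃ C2 : ℝ, 1 ≤ C2 ∧ ∀ c : ℝ, 0 < c → ∀ Y0 : ℝ, ∃ (A : Finset ℕ) (Y : ℝ),
  OP A ∧ Y0 ≤ Y ∧ 1 ≤ Y ∧ hA A * (1 + 1 / Y) = 2 ∧ W * (1 - C2 / Y ^ 2) ≤ RA A ∧ ∀ p ∈ A, (p : ℝ) ≤ c * Y ^ 2

/-- WIN. Hypothesis allowed: S_CHL. Proof. Put `X = c1 Y²`, `λ = log (1+1/Y)`, `m = ⌈6Y⌉`, and let
`q_1 < ... < q_r` be all primes of `(X/2, X]`; `r ≥ c X / log X` by S_CHL, so `r ≥ 51 m` for `Y ≥ Y1(c1)`.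
The 51 disjoint blocks of `m` consecutive primes `q_{jm+1}, ..., q_{(j+1)m}` have total length
(`last - first`, summed) `≤ q_r - q_1 < X/2`, so one block, with indices `i0, ..., i0+m-1`, has
`q_{i0+m-1} - q_{i0} ≤ X/102`.
Write `L(i,j) = ∑_{l=i}^{j} log (1+1/q_l)`. Each term is `≥ log (1+1/X) ≥ 1/(X+1)` and `≤ 2/X`. For `i` in the
block with `i + Y + 3 ≤ i0 + m - 1` let `b(i) ≥ i` be the least index with `L(i,b(i)) ≥ λ`; as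
`λ ≤ 1/Y` and `(Y+2)/(X+1) ≥ 1/Y` (recall `X = c1 Y² ≤ Y²`), `b(i) ≤ i + Y + 2`; also
`b(i) + 1 - i ≥ λ/(2/X) ≥ X/(2(Y+1))` because `λ ≥ 1/(Y+1)`. Let `o(i) = L(i,b(i)) - λ ≥ 0`.
If for some `i` we have `o(i) ≥ log (1 + 1/(4 q_{b(i)}))`, then `M = {q_i, ..., q_{b(i)}}`, `P = q_{b(i)}`
satisfies everything: `log hA (M \ {P}) = L(i,b(i)-1) < λ` by minimality and
`log hA M = λ + o(i)`. (If `b(i) = i` then `M \ {P}` is empty, fine.)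
Suppose there is no such `i` among `i0 ≤ i ≤ i0 + ⌈3Y⌉` (all these windows lie in the block, since
`3Y + 1 + Y + 4 ≤ 6Y` for `Y ≥ 5`). Fix such an `i < i0 + ⌈3Y⌉`, `b = b(i)`, and
`Δ = log (1+1/q_i) - log (1+1/q_{b+1})`. Then
`Δ = log (1 + u)` with `u = (q_{b+1} - q_i)/(q_i (q_{b+1}+1))`; since `X/(2(Y+1)) ≤ b+1-i ≤ q_{b+1} - q_i ≤ X/102` and
`X/2 < q ≤ X`, `1/(6 X Y) ≤ u/(1+u) ≤ Δ ≤ u ≤ (X/102)/(X/2)² < 1/(25 X)` for `Y` large (`q_{b+1}` is in the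
block as well). Now `L(i+1,b) = λ + o(i) - log (1+1/q_i) < λ` as
`o(i) < log (1+1/(4 q_b)) ≤ log (1 + 1/q_i)`: (`4 q_b ≥ q_i`), so `b(i+1) ≥ b+1`, and
`L(i+1,b+1) = λ + o(i) - Δ`. If `o(i) < Δ`, then `L(i+1,b+1) < λ` and
`L(i+1,b+2) = λ + o(i) - Δ + log (1+1/q_{b+2}) ≥ λ - 1/(25X) + log (1+1/q_{b+2})`, which is
`≥ λ + log (1 + 1/(4 q_{b+2}))`, because `log (1+1/q) - log (1+1/(4q)) ≥ (1/q - 1/(2q²)) - 1/(4q) ≥ 1/(2q)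
≥ 1/(2X) ≥ 1/(25X)`; so `b(i+1) = b+2` and `o(i+1) ≥ log (1+1/(4 q_{b(i+1)}))`, contradiction to our
assumption (for `i+1`). So `o(i) ≥ Δ`, `b(i+1) = b+1` and `o(i+1) = o(i) - Δ ≤ o(i) - 1/(6XY)`. After
`⌈3Y⌉` steps: `0 ≤ o(i0+⌈3Y⌉) ≤ o(i0) - 3Y/(6XY) = o(i0) - 1/(2X)`, but
`o(i0) < log (1+1/(4 q_b)) ≤ 1/(4 q_b) < 1/(2X)`. Contradiction. -/
def S_WIN : Prop := ∀ c1 : ℝ, 0 < c1 → c1 ≤ 1 → ∃ Y1 : ℝ, 1 ≤ Y1 ∧ ∀ Y : ℝ, Y1 ≤ Y →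
  ∃ (M : Finset ℕ) (P : ℕ), P ∈ M ∧
    (∀ p ∈ M, p.Prime ∧ c1 * Y ^ 2 / 2 < (p : ℝ) ∧ (p : ℝ) ≤ c1 * Y ^ 2 ∧ p ≤ P) ∧
    hA (M.erase P) < 1 + 1 / Y ∧ (1 + 1 / Y) * (1 + 1 / (4 * (P : ℝ))) ≤ hA M

/-- CAND. Hypotheses allowed: S_BAS, S_NEAR, S_WIN. Proof. Let `C2` be the constant of S_NEAR,
`c1 = 1/(16 C2)`, `a = C2`, `b = c1/8`. Given `Y0`, let `Y0'` be the maximum of `Y0`, `Y1` of S_WIN for `c1`, and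
of constants such that `Y² ≥ 2 C2`, `c1 Y²/2 ≥ Y`, `c1 Y²/2 ≥ 2` for `Y ≥ Y0'`. Take `A`, `Y` of S_NEAR with
`c = c1/2` and `Y0'`, and `M`, `P` of S_WIN. `A` and `M` are disjoint (`p ≤ c1Y²/2` on `A`,
`> c1Y²/2` on `M`), `D = A ∪ M` is a set of odd primes, `P` is its maximum. Let `n = ∏_{p ∈ D} p`; `n` is odd and
squarefree with `n.primeFactors = D`, `σ(n)/n = hA D` (`Nat.sum_divisors`, or
`Nat.divisors` of a squarefree number, or multiplicativity). `hA D = hA A hA M ≥ hA A (1+1/Y)(1+1/(4P)) =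
2 (1+1/(4P)) ≥ 2`: non-deficient. Every proper divisor `d` of `n` divides `n/q` for some `q ∈ D`, and is itself
the product of a proper subset `E` of `D`, contained in `D \ {q}`:
`σ(d)/d = hA E ≤ hA (D \ {q}) = hA D/(1+1/q) ≤ hA D/(1+1/P) = hA A hA (M \ {P}) < hA A (1+1/Y) = 2`: deficient.
`H n = hA D * RA D` (as `p/(p-1) = (1+1/p) (p²/(p²-1))`), `RA D ≥ RA A ≥ W (1-C2/Y²)`,
`hA D ≥ 2 (1+1/(4P)) ≥ 2 (1 + 1/(4 c1 Y²)) = 2 (1 + 4 C2/Y²)`; with `u = C2/Y² ≤ 1/2`,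
`(1-u)(1+4u) = 1+3u-4u² ≥ 1+u`, so `H n ≥ 2 W (1+C2/Y²)`. Finally
`∑_{p ∈ M} 1/p ≥ log hA M ≥ log (1+1/Y) ≥ 1/(Y+1)` and `1/p ≤ 2/(c1Y²)` give `|M| ≥ c1 Y²/(2(Y+1)) ≥
c1 Y/4`, and `log n ≥ ∑_{p ∈ M} log p ≥ |M| log (c1Y²/2) ≥ (c1/4) Y log Y`. -/
def S_CAND : Prop := ∃ a b : ℝ, 0 < a ∧ 0 < b ∧ ∀ Y0 : ℝ, ∃ (Y : ℝ) (n : ℕ), Y0 ≤ Y ∧ 1 ≤ Y ∧ Odd n ∧ Prim n ∧
  2 * W * (1 + a / Y ^ 2) ≤ H n ∧ b * Y * Real.log Y ≤ Real.log n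

/-- SM. Few odd smooth numbers (trick of Rankin). Uses only `π(x) = o(x)` (library:
`Pool.Agent.H381R2.HR.cheb` in `Pool/Agent/H381R2/HR/G.lean`, `π(n) ≤ C n / log n`, or Mathlib `Chebyshev`).
Proof. Let `z = K0 Y²` and `s = 1/2 - 1/log Y`; take `Y` so large that `s ≥ 1/3` and `log K0 ≤ log Y`. For `k`
in `T`, `1 ≤ (N/k)^s`, so the number is `≤ N^s ∑_k k^(-s) ≤ N^s ∏_{3 ≤ p ≤ z} (1 - p^(-s))⁻¹` (Euler product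
over the smooth numbers, Mathlib `EulerProduct` / `Nat.smoothNumbers`, or by induction on the primes), and
`N^s = √N exp (-log N/log Y) ≤ √N exp (-b Y)`. With `u = p^(-s) ≤ 3^(-1/3) < 0.7`:
`log (1-u)⁻¹ ≤ u/(1-u) ≤ 4 u`; `u = p^(-1/2) exp (log p/log Y) ≤ p^(-1/2) exp (log z/log Y) ≤ e³ p^(-1/2)`.
So the product is `≤ exp (4 e³ ∑_{p ≤ z} p^(-1/2))`. For every `θ ∈ (0,1)`
`∑_{p ≤ z} p^(-1/2) ≤ ∑_{m ≤ θz} m^(-1/2) + π(z) (θz)^(-1/2) ≤ 2 √(θz) + (π(z)/z) √z/√θ`, and `√z = √K0 Y`: choosing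
first `θ` small and then `Y` large, this is `≤ (b/(8 e³)) Y`, so the product is
`≤ exp (b Y/2)`. -/
def S_SM : Prop := ∀ K0 b : ℝ, 0 < K0 → 0 < b → ∃ Y1 : ℝ, 2 ≤ Y1 ∧ ∀ Y : ℝ, Y1 ≤ Y → ∀ N : ℕ,
  b * Y * Real.log Y ≤ Real.log N →
  ∀ T : Finset ℕ, (∀ k ∈ T, 1 ≤ k ∧ k ≤ N ∧ Odd k ∧ ∀ p : ℕ, p.Prime → p ∣ k → (p : ℝ) ≤ K0 * Y ^ 2) →
    (T.card : ℝ) ≤ Real.sqrt N * Real.exp (-(b * Y / 2))

/-- FIN. Hypotheses: S_BAS, S_UP, S_CAND, S_SM. -/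
def S_FIN : Prop := B₂.Infinite ∧ ∀ M : ℝ, ∃ j : ℕ, M < g (b (j + 1)) - g (b j)

end Pool.Agent.Q240.PN
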